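import Mathlib
import Pool.Agent.Y620.ET.Extv

set_option autoImplicit false

/-! Valuation rings with a unique extension to every finite Galois extension are henselian. -/

namespace Pool.Agent.X321.DH

open Polynomial

/-- two roots with the same simple residue are equal -/
lemma root_unique {R : Type} [CommRing R] [IsDomain R] [IsLocalRing R] (g : R[X]) (a α β : R)
    (ha : IsUnit (g.derivative.eval a)) (h1 : g.eval α = 0) (h2 : g.eval β = 0)
    (h3 : α - a ∈ IsLocalRing.maximalIdeal R) (h4 : β - a ∈ IsLocalRing.maximalIdeal R) :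
    β = α ∧ IsUnit (g.derivative.eval α) := by
  have hu : IsUnit (g.derivative.eval α) := by
    obtain ⟨c, hc⟩ := sub_dvd_eval_sub α a g.derivative
    by_contra hn
    have h5 : g.derivative.eval α ∈ IsLocalRing.maximalIdeal R := hn
    have h6 : (α - a) * c ∈ IsLocalRing.maximalIdeal R := Ideal.mul_mem_right _ _ h3
    have h7 := Ideal.sub_mem _ h5 h6
    rw [← hc, sub_sub_cancel] at h7
    exact h7 ha
  refine ⟨?_, hu⟩
  obtain ⟨k, hk⟩ := g.binomExpansion α (β - α)
  rw [add_sub_cancel, h1, h2] at hk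
  have h5 : (β - α) * (g.derivative.eval α + k * (β - α)) = 0 := by linear_combination -hk
  rcases mul_eq_zero.1 h5 with h6 | h6
  · exact sub_eq_zero.1 h6
  · exfalso
    have h7 : β - α ∈ IsLocalRing.maximalIdeal R := by
      have := Ideal.sub_mem _ h4 h3
      rwa [sub_sub_sub_cancel_right] at this
    have h8 : g.derivative.eval α = -k * (β - α) := by linear_combination h6
    have h9 : g.derivative.eval α ∈ IsLocalRing.maximalIdeal R := by
      rw [h8]
      exact Ideal.mul_mem_left _ _ h7
    exact h9 hu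

lemma prod_ge {Ω Γ : Type} [Field Ω] [LinearOrderedCommGroupWithZero Γ] (v : Valuation Ω Γ)
    (a : Ω) (s : Multiset Ω) (h : ∀ α ∈ s, 1 ≤ v (a - α)) :
    1 ≤ v ((s.map (fun α => a - α)).prod) := by
  induction s using Multiset.induction_on with
  | empty => simp
  | cons α s ih =>
    rw [Multiset.map_cons, Multiset.prod_cons, map_mul]
    exact one_le_mul (h α (Multiset.mem_cons_self α s))
      (ih fun β hβ => h β (Multiset.mem_cons_of_mem hβ))

theorem hensel {K : Type} [Field K] (O : ValuationSubring K)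
    (hU : ∀ L : IntermediateField K (AlgebraicClosure K), FiniteDimensional K L → IsGalois K L →
      ∀ O₁ O₂ : ValuationSubring L, O₁.comap (algebraMap K L) = O →
        O₂.comap (algebraMap K L) = O → O₁ = O₂) : HenselianLocalRing O := by
  refine ⟨fun f hf a₀ h1 h2 => ?_⟩
  set Ω := AlgebraicClosure K with hΩ
  obtain ⟨P, hP⟩ := Pool.Agent.Y620.ET.t_EXTV K Ω O
  have hmem : ∀ x : K, algebraMap K Ω x ∈ P ↔ x ∈ O := by
    intro x
    rw [← hP, ValuationSubring.mem_comap]
  let ι : O →+* Ω := (algebraMap K Ω).comp O.subtype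
  have hι : ∀ x : O, ι x = algebraMap K Ω (x : K) := fun _ => rfl
  let j : O →+* P := ι.codRestrict P.toSubring (fun x => (hmem x).2 x.2)
  have hj : ∀ x : O, ((j x : P) : Ω) = algebraMap K Ω (x : K) := fun _ => rfl
  -- the maximal ideals
  have hmO : ∀ x : O, x ∈ IsLocalRing.maximalIdeal O ↔ (x : K) = 0 ∨ (x : K)⁻¹ ∉ O := by
    intro x
    rw [IsLocalRing.mem_maximalIdeal, mem_nonunits_iff]
    constructor
    · intro h
      by_contra hc
      push Not at hc
      exact h (IsUnit.of_mul_eq_one ⟨(x : K)⁻¹, hc.2⟩ (Subtype.ext (mul_inv_cancel₀ hc.1)))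
    · rintro h hx
      obtain ⟨y, hy⟩ := hx.exists_right_inv
      have hy' : (x : K) * y = 1 := congrArg Subtype.val hy
      rcases h with h | h
      · rw [h, zero_mul] at hy'
        exact zero_ne_one hy'
      · rw [← eq_inv_of_mul_eq_one_right hy'] at h
        exact h y.2
  have hmP : ∀ x : P, x ∈ IsLocalRing.maximalIdeal P ↔ (x : Ω) = 0 ∨ (x : Ω)⁻¹ ∉ P := by
    intro x
    rw [IsLocalRing.mem_maximalIdeal, mem_nonunits_iff]
    constructor
    · intro h
      by_contra hc
      push Not at hc
      exact h (IsUnit.of_mul_eq_one ⟨(x : Ω)⁻¹, hc.2⟩ (Subtype.ext (mul_inv_cancel₀ hc.1)))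
    · rintro h hx
      obtain ⟨y, hy⟩ := hx.exists_right_inv
      have hy' : (x : Ω) * y = 1 := congrArg Subtype.val hy
      rcases h with h | h
      · rw [h, zero_mul] at hy'
        exact zero_ne_one hy'
      · rw [← eq_inv_of_mul_eq_one_right hy'] at h
        exact h y.2
  have hjm : ∀ x : O, j x ∈ IsLocalRing.maximalIdeal P ↔ x ∈ IsLocalRing.maximalIdeal O := by
    intro x
    rw [hmP, hmO, hj, ← map_inv₀, hmem, map_eq_zero]
  -- the polynomial over `P`
  set g : P[X] := f.map j with hg
  have hgm : g.Monic := hf.map j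
  set a : P := j a₀ with ha
  have hga : g.eval a = j (f.eval a₀) := by rw [hg, ha, eval_map, eval₂_at_apply]
  have hga' : g.derivative.eval a = j (f.derivative.eval a₀) := by
    rw [hg, ha, derivative_map, eval_map, eval₂_at_apply]
  have hunit : IsUnit (g.derivative.eval a) := by
    rw [hga']
    exact h2.map j
  -- a root in `Ω`
  obtain ⟨α, hα, hαa⟩ : ∃ α : Ω, (g.map P.subtype).eval α = 0 ∧
      P.valuation ((a : Ω) - α) < 1 := by
    by_contra hc
    push Not at hc
    have hs : (g.map P.subtype).Splits := IsAlgClosed.splits _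
    have hgm' : (g.map P.subtype).Monic := hgm.map _
    have h3 := hs.eval_eq_prod_roots_of_monic hgm' (a : Ω)
    have h4 := prod_ge P.valuation (a : Ω) (g.map P.subtype).roots (fun α hα =>
      hc α ((mem_roots'.1 hα).2))
    rw [← h3] at h4
    have h5 : (g.map P.subtype).eval (a : Ω) = ((g.eval a : P) : Ω) := by
      rw [eval_map]
      exact eval₂_at_apply P.subtype a
    rw [h5, hga] at h4
    have h6 : j (f.eval a₀) ∈ IsLocalRing.maximalIdeal P := (hjm _).2 h1
    rw [ValuationSubring.valuation_lt_one_iff] at h6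
    exact absurd h6 (not_lt.2 h4)
  have hαP : α ∈ P := by
    have h3 : (a : Ω) - α ∈ P := (ValuationSubring.valuation_le_one_iff _ _).1 hαa.le
    have h4 := sub_mem a.2 h3
    rwa [sub_sub_cancel] at h4
  have hroot : ∀ β : P, (g.map P.subtype).eval (β : Ω) = 0 → g.eval β = 0 := by
    intro β h
    rw [eval_map] at h
    have h3 : P.subtype (g.eval β) = 0 := by
      rw [← eval₂_at_apply]
      exact h
    exact Subtype.ext h3
  have hα' : g.eval (⟨α, hαP⟩ : P) = 0 := hroot ⟨α, hαP⟩ hα
  have hαm : (⟨α, hαP⟩ : P) - a ∈ IsLocalRing.maximalIdeal P := by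
    rw [ValuationSubring.valuation_lt_one_iff]
    change P.valuation (α - (a : Ω)) < 1
    rw [Valuation.map_sub_swap]
    exact hαa
  have hder := (root_unique g a ⟨α, hαP⟩ ⟨α, hαP⟩ hunit hα' hα' hαm hαm).2
  -- the polynomial over `K`
  set F : K[X] := f.map O.subtype with hF
  have hFg : F.map (algebraMap K Ω) = g.map P.subtype := by
    rw [hF, hg, map_map, map_map]
    rfl
  have hFα : aeval α F = 0 := by
    rw [aeval_def, ← eval_map, hFg]
    exact hα
  have hF'α : aeval α (derivative F) ≠ 0 := by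
    rw [aeval_def, ← eval_map, ← derivative_map, hFg, derivative_map, eval_map]
    intro h
    have h3 : P.subtype (g.derivative.eval (⟨α, hαP⟩ : P)) = 0 := by
      rw [← eval₂_at_apply]
      exact h
    have h4 : g.derivative.eval (⟨α, hαP⟩ : P) = 0 := Subtype.ext h3
    rw [h4] at hder
    exact not_isUnit_zero hder
  have hint : IsIntegral K α := ⟨F, hf.map _, hFα⟩
  have hsep : (minpoly K α).Separable := by
    rw [separable_iff_derivative_ne_zero (minpoly.irreducible hint)]
    intro h
    obtain ⟨q, hq⟩ := minpoly.dvd K α hFα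
    apply hF'α
    rw [hq, derivative_mul, h, zero_mul, zero_add, map_mul, minpoly.aeval, zero_mul]
  let L : IntermediateField K Ω := IntermediateField.adjoin K ((minpoly K α).rootSet Ω)
  have hLs : (minpoly K α).IsSplittingField K L :=
    IntermediateField.adjoin_rootSet_isSplittingField (IsAlgClosed.splits _)
  have hLf : FiniteDimensional K L := IsSplittingField.finiteDimensional L (minpoly K α)
  have hLg : IsGalois K L := IsGalois.of_separable_splitting_field hsep
  have hαL : α ∈ L := IntermediateField.subset_adjoin K _ (by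
    rw [mem_rootSet]
    exact ⟨minpoly.ne_zero hint, minpoly.aeval K α⟩)
  let Q : ValuationSubring L := P.comap (algebraMap L Ω)
  have hQ : Q.comap (algebraMap K L) = O := by
    ext x
    rw [ValuationSubring.mem_comap, ValuationSubring.mem_comap, ← hmem]
    rfl
  have hσ : ∀ (σ : L ≃ₐ[K] L) (x : L), σ x ∈ Q ↔ x ∈ Q := by
    intro σ x
    have h3 : (Q.comap (σ : L →+* L)).comap (algebraMap K L) = O := by
      refine Eq.trans ?_ hQ
      ext y
      have : (σ : L →+* L) (algebraMap K L y) = algebraMap K L y := σ.commutes y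
      change (σ : L →+* L) (algebraMap K L y) ∈ Q ↔ algebraMap K L y ∈ Q
      rw [this]
    have h4 := hU L hLf hLg _ _ hQ h3
    have h5 : x ∈ Q ↔ x ∈ Q.comap (σ : L →+* L) := by rw [← h4]
    exact h5.symm
  have hfix : ∀ σ : L ≃ₐ[K] L, σ ⟨α, hαL⟩ = ⟨α, hαL⟩ := by
    intro σ
    set β : L := σ ⟨α, hαL⟩ with hβ
    have hαQ : (⟨α, hαL⟩ : L) ∈ Q := hαP
    have hβP : (β : Ω) ∈ P := (hσ σ _).2 hαQ
    have hβ0 : (g.map P.subtype).eval (β : Ω) = 0 := by
      rw [← hFg, eval_map, ← aeval_def]
      have h3 : aeval (⟨α, hαL⟩ : L) F = 0 := by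
        apply Subtype.ext
        have := aeval_algebraMap_apply Ω (⟨α, hαL⟩ : L) F
        change aeval α F = _ at this
        rw [hFα] at this
        exact this.symm
      have h4 : aeval β F = 0 := by
        rw [hβ, aeval_algEquiv, AlgHom.comp_apply, h3, map_zero]
      have := aeval_algebraMap_apply Ω β F
      rw [h4, map_zero] at this
      exact this
    have hβm : (⟨(β : Ω), hβP⟩ : P) - a ∈ IsLocalRing.maximalIdeal P := by
      rw [hmP] at hαm ⊢
      have h3 : σ (⟨α, hαL⟩ - algebraMap K L (a₀ : K)) = β - algebraMap K L (a₀ : K) := by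
        rw [map_sub, σ.commutes]
      rcases hαm with h4 | h4
      · left
        have h5 : (⟨α, hαL⟩ : L) - algebraMap K L (a₀ : K) = 0 := Subtype.ext h4
        rw [h5, map_zero] at h3
        exact (congrArg Subtype.val h3).symm
      · right
        intro h5
        apply h4
        have h6 : (β - algebraMap K L (a₀ : K))⁻¹ ∈ Q := h5
        rw [← h3, ← map_inv₀, hσ] at h6
        exact h6
    have h3 := (root_unique g a ⟨α, hαP⟩ ⟨β, hβP⟩ hunit hα' (hroot ⟨β, hβP⟩ hβ0) hαm hβm).1
    exact Subtype.ext (congrArg (fun z : P => (z : Ω)) h3)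
  obtain ⟨b, hb⟩ := (IsGalois.mem_range_algebraMap_iff_fixed (F := K) (⟨α, hαL⟩ : L)).2 hfix
  have hbα : algebraMap K Ω b = α := congrArg Subtype.val hb
  have hbO : b ∈ O := by
    rw [← hmem, hbα]
    exact hαP
  refine ⟨⟨b, hbO⟩, ?_, ?_⟩
  · apply Subtype.ext
    apply (algebraMap K Ω).injective
    have h3 : j (f.eval ⟨b, hbO⟩) = 0 := by
      rw [← eval₂_at_apply, ← eval_map, ← hg]
      have : j ⟨b, hbO⟩ = ⟨α, hαP⟩ := Subtype.ext hbα
      rw [this]
      exact hα'
    have h4 := congrArg Subtype.val h3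
    rw [hj] at h4
    change algebraMap K Ω _ = algebraMap K Ω (0 : K)
    rw [map_zero]
    exact h4
  · rw [← hjm, map_sub]
    have : j ⟨b, hbO⟩ = ⟨α, hαP⟩ := Subtype.ext hbα
    rw [this]
    exact hαm

end Pool.Agent.X321.DH
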