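import Mathlib

set_option autoImplicit false

/-! Definable sets of fields: closure properties, and a definable coarsening of a valuation ring
with `p`-divisible one-units. -/

namespace Pool.Agent.X321.DH

open FirstOrder FirstOrder.Language FirstOrder.Ring

section closure

variable {K : Type} [Field K] [CompatibleRing K] {α β : Type}

/-- the predicate `P` is definable without parameters -/
def Df (P : (α → K) → Prop) : Prop := ∃ φ : Language.ring.Formula α, ∀ v, φ.Realize v ↔ P v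

lemma Df.eq (t s : Language.ring.Term α) : Df (fun v : α → K => t.realize v = s.realize v) :=
  ⟨t.equal s, fun v => by rw [Formula.realize_equal]⟩

lemma Df.not {P : (α → K) → Prop} (h : Df P) : Df (fun v => ¬ P v) := by
  obtain ⟨φ, hφ⟩ := h
  exact ⟨φ.not, fun v => by rw [Formula.realize_not, hφ]⟩

lemma Df.and {P Q : (α → K) → Prop} (h : Df P) (h' : Df Q) : Df (fun v => P v ∧ Q v) := by
  obtain ⟨φ, hφ⟩ := h
  obtain ⟨ψ, hψ⟩ := h'
  exact ⟨φ ⊓ ψ, fun v => by rw [Formula.realize_inf, hφ, hψ]⟩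

lemma Df.or {P Q : (α → K) → Prop} (h : Df P) (h' : Df Q) : Df (fun v => P v ∨ Q v) := by
  obtain ⟨φ, hφ⟩ := h
  obtain ⟨ψ, hψ⟩ := h'
  exact ⟨φ ⊔ ψ, fun v => by rw [Formula.realize_sup, hφ, hψ]⟩

lemma Df.some {ι : Type} [Finite ι] {P : ι → (α → K) → Prop} (h : ∀ i, Df (P i)) :
    Df (fun v => ∃ i, P i v) := by
  choose φ hφ using h
  exact ⟨Formula.iSup φ, fun v => by
    rw [Formula.realize_iSup]
    exact exists_congr fun i => hφ i v⟩

lemma Df.ex {P : (α ⊕ Fin 1 → K) → Prop} (h : Df P) :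
    Df (fun v => ∃ y : K, P (Sum.elim v (fun _ => y))) := by
  obtain ⟨φ, hφ⟩ := h
  refine ⟨φ.iExs (Fin 1), fun v => ?_⟩
  rw [Formula.realize_iExs]
  constructor
  · rintro ⟨i, hi⟩
    refine ⟨i 0, ?_⟩
    rw [hφ] at hi
    have : i = fun _ => i 0 := by
      funext j
      rw [Subsingleton.elim j 0]
    rwa [this] at hi
  · rintro ⟨y, hy⟩
    exact ⟨fun _ => y, (hφ _).2 hy⟩

lemma Df.al {P : (α ⊕ Fin 1 → K) → Prop} (h : Df P) :
    Df (fun v => ∀ y : K, P (Sum.elim v (fun _ => y))) := by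
  have h1 := (h.not.ex).not
  obtain ⟨φ, hφ⟩ := h1
  refine ⟨φ, fun v => ?_⟩
  rw [hφ]
  push Not
  rfl

lemma Df.sub {P : (α → K) → Prop} (h : Df P) (t : α → Language.ring.Term β) :
    Df (fun v : β → K => P (fun a => (t a).realize v)) := by
  obtain ⟨φ, hφ⟩ := h
  refine ⟨φ.subst t, fun v => ?_⟩
  refine Iff.trans ?_ (hφ _)
  exact BoundedFormula.realize_subst

lemma Df.congr {P Q : (α → K) → Prop} (h : Df P) (hPQ : ∀ v, P v ↔ Q v) : Df Q := by
  obtain ⟨φ, hφ⟩ := h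
  exact ⟨φ, fun v => (hφ v).trans (hPQ v)⟩

/-- powers of terms -/
def tpow (t : Language.ring.Term α) : ℕ → Language.ring.Term α
  | 0 => 1
  | n + 1 => tpow t n * t

lemma realize_tpow (t : Language.ring.Term α) (n : ℕ) (v : α → K) :
    (tpow t n).realize v = (t.realize v) ^ n := by
  induction n with
  | zero => rw [tpow, realize_one, pow_zero]
  | succ n ih => rw [tpow, realize_mul, ih, pow_succ]

end closure

section ring

variable {K : Type} [Field K]

/-- `x` is a nonzero element of `⋃ c_i K*^p` -/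
def InH (p : ℕ) {k : ℕ} (c : Fin k → K) (x : K) : Prop := ∃ i, ∃ y : K, y ≠ 0 ∧ x = c i * y ^ p

/-- `x` is not in `H` and `1 + x` is a `p`-th power -/
def Smm (p : ℕ) {k : ℕ} (c : Fin k → K) (x : K) : Prop :=
  x ≠ 0 ∧ ¬ InH p c x ∧ ∃ y : K, y ^ p = 1 + x

/-- the definable ring -/
def Mm (p : ℕ) {k : ℕ} (c : Fin k → K) (x : K) : Prop :=
  x = 0 ∨ Smm p c x ∨ (InH p c x ∧ ∀ a : K, ¬ Smm p c a ∨ Smm p c (x * a))

variable [CompatibleRing K]

lemma df_InH (p k : ℕ) :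
    Df (fun v : Fin 1 ⊕ Fin k → K => InH p (fun i => v (Sum.inr i)) (v (Sum.inl 0))) := by
  unfold InH
  refine Df.some fun i => ?_
  let x : Language.ring.Term ((Fin 1 ⊕ Fin k) ⊕ Fin 1) := Term.var (Sum.inl (Sum.inl 0))
  let ci : Language.ring.Term ((Fin 1 ⊕ Fin k) ⊕ Fin 1) := Term.var (Sum.inl (Sum.inr i))
  let y : Language.ring.Term ((Fin 1 ⊕ Fin k) ⊕ Fin 1) := Term.var (Sum.inr 0)
  have h := (((Df.eq (K := K) y 0).not).and (Df.eq (K := K) x (ci * tpow y p))).ex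
  refine h.congr fun v => ?_
  simp only [realize_mul, realize_tpow, realize_zero]
  rfl

lemma df_Smm (p k : ℕ) :
    Df (fun v : Fin 1 ⊕ Fin k → K => Smm p (fun i => v (Sum.inr i)) (v (Sum.inl 0))) := by
  unfold Smm
  let x : Language.ring.Term (Fin 1 ⊕ Fin k) := Term.var (Sum.inl 0)
  have h1 : Df (fun v : Fin 1 ⊕ Fin k → K => v (Sum.inl 0) ≠ 0) :=
    ((Df.eq (K := K) x 0).not).congr fun v => by
      rw [realize_zero]
      rfl
  have h2 : Df (fun v : Fin 1 ⊕ Fin k → K => ∃ y : K, y ^ p = 1 + v (Sum.inl 0)) := by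
    let x : Language.ring.Term ((Fin 1 ⊕ Fin k) ⊕ Fin 1) := Term.var (Sum.inl (Sum.inl 0))
    let y : Language.ring.Term ((Fin 1 ⊕ Fin k) ⊕ Fin 1) := Term.var (Sum.inr 0)
    refine (Df.eq (K := K) (tpow y p) (1 + x)).ex.congr fun v => ?_
    simp only [realize_add, realize_tpow, realize_one]
    rfl
  exact h1.and ((df_InH p k).not.and h2)

lemma df_Mm (p k : ℕ) :
    Df (fun v : Fin 1 ⊕ Fin k → K => Mm p (fun i => v (Sum.inr i)) (v (Sum.inl 0))) := by
  unfold Mm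
  let x : Language.ring.Term (Fin 1 ⊕ Fin k) := Term.var (Sum.inl 0)
  have h1 : Df (fun v : Fin 1 ⊕ Fin k → K => v (Sum.inl 0) = 0) :=
    (Df.eq (K := K) x 0).congr fun v => by
      rw [realize_zero]
      rfl
  let t1 : Fin 1 ⊕ Fin k → Language.ring.Term ((Fin 1 ⊕ Fin k) ⊕ Fin 1) :=
    Sum.elim (fun _ => Term.var (Sum.inr 0)) (fun i => Term.var (Sum.inl (Sum.inr i)))
  let t2 : Fin 1 ⊕ Fin k → Language.ring.Term ((Fin 1 ⊕ Fin k) ⊕ Fin 1) :=
    Sum.elim (fun _ => Term.var (Sum.inl (Sum.inl 0)) * Term.var (Sum.inr 0))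
      (fun i => Term.var (Sum.inl (Sum.inr i)))
  have h2 : Df (fun v : Fin 1 ⊕ Fin k → K => ∀ a : K, ¬ Smm p (fun i => v (Sum.inr i)) a ∨
      Smm p (fun i => v (Sum.inr i)) (v (Sum.inl 0) * a)) := by
    refine ((((df_Smm p k).sub t1).not).or ((df_Smm p k).sub t2)).al.congr fun v => ?_
    refine forall_congr' fun a => ?_
    simp only [t1, t2, Sum.elim_inl, Sum.elim_inr, realize_mul]
    rfl
  exact h1.or ((df_Smm p k).or ((df_InH p k).and h2))

/-- `O` is definable with parameters in the ring language -/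
lemma exists_formula (p k : ℕ) (c : Fin k → K) :
    ∃ ψ : Language.ring.Formula (Fin 1 ⊕ Fin k), ∀ x : K,
      Mm p c x ↔ ψ.Realize (Sum.elim (fun _ => x) c) := by
  obtain ⟨ψ, hψ⟩ := df_Mm (K := K) p k
  refine ⟨ψ, fun x => ?_⟩
  rw [hψ]
  rfl

end ring

end Pool.Agent.X321.DH
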