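import Mathlib
import Pool.Agent.X321.DH.Def

set_option autoImplicit false

/-! A definable coarsening of a valuation ring whose one-units are `p`-th powers. -/

namespace Pool.Agent.X321.DH

open FirstOrder FirstOrder.Language FirstOrder.Ring

variable {K : Type} [Field K]

/-- the group of `p`-th powers -/
def pw (p : ℕ) (K : Type) [Field K] : Subgroup Kˣ := (powMonoidHom p : Kˣ →* Kˣ).range

lemma mem_pw {p : ℕ} {x : Kˣ} : x ∈ pw p K ↔ ∃ y : Kˣ, x = y ^ p := by
  rw [pw, MonoidHom.mem_range]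
  constructor
  · rintro ⟨y, rfl⟩; exact ⟨y, rfl⟩
  · rintro ⟨y, rfl⟩; exact ⟨y, rfl⟩

/-- representatives -/
lemma exists_reps (p : ℕ) [Finite (Kˣ ⧸ pw p K)] (H : Subgroup Kˣ) (hH : pw p K ≤ H) :
    ∃ (k : ℕ) (c : Fin k → K), ∀ x : K, InH p c x ↔ ∃ u ∈ H, (u : K) = x := by
  let S : Set (Kˣ ⧸ pw p K) := {q | ∃ u ∈ H, (u : Kˣ ⧸ pw p K) = q}
  obtain ⟨k, ⟨e⟩⟩ := Finite.exists_equiv_fin S
  refine ⟨k, fun i => ((Quotient.out (e.symm i : Kˣ ⧸ pw p K) : Kˣ) : K), fun x => ?_⟩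
  constructor
  · rintro ⟨i, y, hy, rfl⟩
    obtain ⟨u, hu, huq⟩ := (e.symm i).2
    refine ⟨Quotient.out (e.symm i : Kˣ ⧸ pw p K) * (Units.mk0 y hy) ^ p, ?_, by
      rw [Units.val_mul, Units.val_pow_eq_pow_val, Units.val_mk0]⟩
    refine H.mul_mem ?_ (hH (mem_pw.2 ⟨_, rfl⟩))
    have h1 : ((Quotient.out (e.symm i : Kˣ ⧸ pw p K) : Kˣ) : Kˣ ⧸ pw p K) = u := by
      rw [huq]
      exact Quotient.out_eq' _
    rw [QuotientGroup.eq] at h1
    have h2 := hH h1
    have h3 := H.mul_mem hu (H.inv_mem h2)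
    rwa [mul_inv_rev, inv_inv, mul_inv_cancel_left] at h3
  · rintro ⟨u, hu, rfl⟩
    have hmem : (u : Kˣ ⧸ pw p K) ∈ S := ⟨u, hu, rfl⟩
    refine ⟨e ⟨_, hmem⟩, ?_⟩
    simp only [Equiv.symm_apply_apply]
    have h1 : ((Quotient.out (u : Kˣ ⧸ pw p K) : Kˣ) : Kˣ ⧸ pw p K) = u := Quotient.out_eq' _
    rw [QuotientGroup.eq, mem_pw] at h1
    obtain ⟨y, hy⟩ := h1
    refine ⟨y, y.ne_zero, ?_⟩
    rw [← Units.val_pow_eq_pow_val, ← hy, Units.val_mul, Units.val_inv_eq_inv_val,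
      mul_inv_cancel_left₀ (Units.ne_zero _)]

variable {p : ℕ} {O : ValuationSubring K}

/-- a definable coarsening -/
theorem exists_coarse [Finite (Kˣ ⧸ pw p K)]
    (hO : ∀ x : K, x ∈ O → x⁻¹ ∉ O → ∃ y : K, y ^ p = 1 + x) :
    ∃ (O' : ValuationSubring K) (k : ℕ) (c : Fin k → K), O ≤ O' ∧
      (∀ x : K, x ∈ O' ↔ Mm p c x) ∧ O'.unitGroup ≤ O.unitGroup ⊔ pw p K := by
  obtain ⟨k, c, hc⟩ := exists_reps p (O.unitGroup ⊔ pw p K) le_sup_right
  set H : Subgroup Kˣ := O.unitGroup ⊔ pw p K with hH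
  have hunit : ∀ x : Kˣ, (x : K) ∈ O → (x : K)⁻¹ ∈ O → x ∈ H := by
    intro x h1 h2
    refine (le_sup_left : O.unitGroup ≤ _) ?_
    rw [ValuationSubring.mem_unitGroup_iff]
    apply le_antisymm
    · exact (ValuationSubring.valuation_le_one_iff _ _).2 h1
    · have h3 := (ValuationSubring.valuation_le_one_iff O _).2 h2
      rw [map_inv₀] at h3
      have h4 : O.valuation (x : K) ≠ 0 := (Valuation.ne_zero_iff _).2 x.ne_zero
      exact (inv_le_one₀ (zero_lt_iff.2 h4)).1 h3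
  have hin : ∀ x : Kˣ, InH p c (x : K) ↔ x ∈ H := by
    intro x
    rw [hc]
    constructor
    · rintro ⟨u, hu, h⟩
      rwa [← Units.ext h]
    · intro h
      exact ⟨x, h, rfl⟩
  have hTH : ∀ x : K, x ≠ 0 → (∃ y : K, y ^ p = x) → ∀ hx : x ≠ 0, Units.mk0 x hx ∈ pw p K := by
    rintro x hx0 ⟨y, rfl⟩ hx
    rcases Nat.eq_zero_or_pos p with rfl | hp
    · have : Units.mk0 (y ^ 0) hx = 1 := Units.ext (by simp)
      rw [this]
      exact Subgroup.one_mem _
    · have hy : y ≠ 0 := by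
        rintro rfl
        exact hx (zero_pow hp.ne')
      rw [mem_pw]
      exact ⟨Units.mk0 y hy, Units.ext (by rw [Units.val_mk0, Units.val_pow_eq_pow_val,
        Units.val_mk0])⟩
  -- small elements
  have hsm : ∀ a : Kˣ, Smm p c (a : K) ↔ a ∉ H ∧ (a : K) ∈ O ∧ (a : K)⁻¹ ∉ O := by
    intro a
    constructor
    · rintro ⟨-, h1, h2⟩
      rw [hin] at h1
      have h3 : (a : K) ∈ O := by
        by_contra h3
        have h4 : (a : K)⁻¹ ∈ O := (O.mem_or_inv_mem _).resolve_left h3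
        obtain ⟨z, hz⟩ := hO (a : K)⁻¹ h4 (by rwa [inv_inv])
        have h5 : (1 : K) + (a : K)⁻¹ ≠ 0 := by
          intro h5
          apply h3
          have : (a : K)⁻¹ = -1 := by linear_combination h5
          rw [← inv_inv (a : K), this, inv_neg, inv_one]
          exact O.neg_mem _ O.one_mem
        have h6 : (1 : K) + a ≠ 0 := by
          intro h6
          apply h5
          have : (a : K) = -1 := by linear_combination h6
          rw [this]
          norm_num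
        have h7 := hTH _ h5 ⟨z, hz⟩ h5
        have h8 := hTH _ h6 h2 h6
        apply h1
        have h9 : a = Units.mk0 _ h6 * (Units.mk0 _ h5)⁻¹ := by
          apply Units.ext
          rw [Units.val_mul, Units.val_inv_eq_inv_val, Units.val_mk0, Units.val_mk0, eq_comm,
            mul_inv_eq_iff_eq_mul₀ h5, mul_add, mul_one, mul_inv_cancel₀ a.ne_zero, add_comm]
        rw [h9]
        exact (le_sup_right : pw p K ≤ _) (Subgroup.mul_mem _ h8 (Subgroup.inv_mem _ h7))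
      exact ⟨h1, h3, fun h4 => h1 (hunit a h3 h4)⟩
    · rintro ⟨h1, h2, h3⟩
      exact ⟨a.ne_zero, by rwa [hin], hO _ h2 h3⟩
  -- the members
  have hM : ∀ x : K, Mm p c x ↔ x ∈ O ∨ (∃ u ∈ H, (u : K) = x ∧
      ∀ a : Kˣ, a ∉ H → (a : K) ∈ O → (a : K)⁻¹ ∉ O →
        ((u * a : Kˣ) : K) ∈ O ∧ ((u * a : Kˣ) : K)⁻¹ ∉ O) := by
    intro x
    by_cases hx : x = 0
    · subst hx
      exact ⟨fun _ => Or.inl O.zero_mem, fun _ => Or.inl rfl⟩
    obtain ⟨u, rfl⟩ : ∃ u : Kˣ, (u : K) = x := ⟨Units.mk0 x hx, rfl⟩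
    constructor
    · rintro (h | h | ⟨h1, h2⟩)
      · exact absurd h hx
      · exact Or.inl ((hsm u).1 h).2.1
      · refine Or.inr ⟨u, (hin u).1 h1, rfl, fun a ha ha1 ha2 => ?_⟩
        have h3 := (h2 (a : K)).resolve_left (not_not.2 ((hsm a).2 ⟨ha, ha1, ha2⟩))
        rw [← Units.val_mul] at h3
        exact ((hsm (u * a)).1 h3).2
    · have key : u ∈ H → (∀ a : Kˣ, a ∉ H → (a : K) ∈ O → (a : K)⁻¹ ∉ O →
        ((u * a : Kˣ) : K) ∈ O ∧ ((u * a : Kˣ) : K)⁻¹ ∉ O) → Mm p c (u : K) := by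
        intro hu h
        refine Or.inr (Or.inr ⟨(hin u).2 hu, fun a => ?_⟩)
        by_cases ha : Smm p c a
        · right
          obtain ⟨b, rfl⟩ : ∃ b : Kˣ, (b : K) = a := ⟨Units.mk0 a ha.1, rfl⟩
          obtain ⟨h1, h2, h3⟩ := (hsm b).1 ha
          rw [← Units.val_mul, hsm]
          refine ⟨fun h4 => h1 ?_, h b h1 h2 h3⟩
          have := H.mul_mem (H.inv_mem hu) h4
          rwa [inv_mul_cancel_left] at this
        · exact Or.inl ha
      rintro (h | ⟨u', hu', h1, h2⟩)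
      · by_cases hu : u ∈ H
        · refine key hu fun a ha ha1 ha2 => ?_
          rw [Units.val_mul]
          refine ⟨O.mul_mem _ _ h ha1, fun h3 => ha2 ?_⟩
          have h4 := O.mul_mem _ _ h h3
          rwa [mul_inv_rev, mul_comm (a : K)⁻¹, mul_inv_cancel_left₀ u.ne_zero] at h4
        · refine Or.inr (Or.inl ((hsm u).2 ⟨hu, h, fun h3 => hu (hunit u h h3)⟩))
      · rw [Units.ext h1] at hu' h2
        exact key hu' h2
  have hle : ∀ x ∈ O, Mm p c x := fun x hx => (hM x).2 (Or.inl hx)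
  -- products
  have hmul : ∀ x y : K, Mm p c x → Mm p c y → Mm p c (x * y) := by
    have h1 : ∀ (u : Kˣ) (y : K), u ∈ H → (∀ a : Kˣ, a ∉ H → (a : K) ∈ O → (a : K)⁻¹ ∉ O →
        ((u * a : Kˣ) : K) ∈ O ∧ ((u * a : Kˣ) : K)⁻¹ ∉ O) → Mm p c y → Mm p c (u * y) := by
      intro u y hu h hy
      by_cases hy0 : y = 0
      · rw [hy0, mul_zero]
        exact Or.inl rfl
      obtain ⟨w, rfl⟩ : ∃ w : Kˣ, (w : K) = y := ⟨Units.mk0 y hy0, rfl⟩
      by_cases hw : w ∈ H
      · rw [← Units.val_mul, hM]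
        refine Or.inr ⟨u * w, H.mul_mem hu hw, rfl, fun a ha ha1 ha2 => ?_⟩
        rw [mul_assoc]
        have hwa : w * a ∉ H := fun h4 => ha (by
          have := H.mul_mem (H.inv_mem hw) h4
          rwa [inv_mul_cancel_left] at this)
        rcases (hM _).1 hy with h2 | ⟨w', _, hw', h3⟩
        · refine h _ hwa ?_ fun h5 => ha2 ?_
          · rw [Units.val_mul]
            exact O.mul_mem _ _ h2 ha1
          · rw [Units.val_mul] at h5
            have h4 := O.mul_mem _ _ h2 h5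
            rwa [mul_inv_rev, mul_comm (a : K)⁻¹, mul_inv_cancel_left₀ w.ne_zero] at h4
        · rw [Units.ext hw'] at h3
          obtain ⟨h4, h5⟩ := h3 a ha ha1 ha2
          exact h _ hwa h4 h5
      · -- `w` is small
        have h2 : (w : K) ∈ O := by
          rcases (hM _).1 hy with h2 | ⟨w', hw', h3, -⟩
          · exact h2
          · rw [Units.ext h3] at hw'
            exact absurd hw' hw
        obtain ⟨h4, -⟩ := h w hw h2 (fun h3 => hw (hunit w h2 h3))
        rw [← Units.val_mul]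
        exact hle _ h4
    intro x y hx hy
    rcases (hM _).1 hx with h2 | ⟨u, hu, rfl, h3⟩
    · rcases (hM _).1 hy with h4 | ⟨u, hu, rfl, h3⟩
      · exact hle _ (O.mul_mem _ _ h2 h4)
      · rw [mul_comm]
        exact h1 u x hu h3 hx
    · exact h1 u y hu h3 hy
  have hneg : ∀ x : K, Mm p c x → Mm p c (-x) := by
    intro x hx
    rw [← neg_one_mul]
    exact hmul _ _ (hle _ (O.neg_mem _ O.one_mem)) hx
  have hadd' : ∀ x y : K, x ≠ 0 → y / x ∈ O → Mm p c x → Mm p c (x + y) := by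
    intro x y hx hyx h
    have h1 : x + y = x * (1 + y / x) := by field_simp
    rw [h1]
    exact hmul _ _ h (hle _ (O.add_mem _ _ O.one_mem hyx))
  have hadd : ∀ x y : K, Mm p c x → Mm p c y → Mm p c (x + y) := by
    intro x y hx hy
    by_cases hx0 : x = 0
    · rwa [hx0, zero_add]
    by_cases hy0 : y = 0
    · rwa [hy0, add_zero]
    rcases O.mem_or_inv_mem (y / x) with h1 | h1
    · exact hadd' x y hx0 h1 hx
    · rw [inv_div] at h1
      rw [add_comm]
      exact hadd' y x hy0 h1 hy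
  let R : Subring K :=
    { carrier := {x | Mm p c x}
      mul_mem' := fun {x y} hx hy => hmul x y hx hy
      one_mem' := hle _ O.one_mem
      add_mem' := fun {x y} hx hy => hadd x y hx hy
      zero_mem' := Or.inl rfl
      neg_mem' := fun {x} hx => hneg x hx }
  let O' : ValuationSubring K :=
    { R with mem_or_inv_mem' := fun x => (O.mem_or_inv_mem x).imp (hle x) (hle x⁻¹) }
  have hO' : ∀ x : K, x ∈ O' ↔ Mm p c x := fun x => Iff.rfl
  refine ⟨O', k, c, fun x hx => hle x hx, hO', ?_⟩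
  intro u hu
  have h1 : (u : K) ∈ O' := by
    rw [← ValuationSubring.valuation_le_one_iff]
    exact le_of_eq hu
  have h2 : ((u⁻¹ : Kˣ) : K) ∈ O' := by
    rw [← ValuationSubring.valuation_le_one_iff]
    exact le_of_eq (inv_mem hu : u⁻¹ ∈ O'.unitGroup)
  rw [hO', hM] at h1 h2
  by_contra h3
  have h4 : u⁻¹ ∉ H := fun h => h3 (by
    have := H.inv_mem h
    rwa [inv_inv] at this)
  have h5 : (u : K) ∈ O := by
    rcases h1 with h1 | ⟨u', hu', h6, -⟩
    · exact h1
    · rw [Units.ext h6] at hu'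
      exact absurd hu' h3
  have h6 : ((u⁻¹ : Kˣ) : K) ∈ O := by
    rcases h2 with h1 | ⟨u', hu', h6, -⟩
    · exact h1
    · rw [Units.ext h6] at hu'
      exact absurd hu' h4
  rw [Units.val_inv_eq_inv_val] at h6
  exact h3 (hunit u h5 h6)

end Pool.Agent.X321.DH
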