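import Mathlib
import Pool.Agent.Results.MP_600e55_nt.ManyRelations

set_option autoImplicit false

/-! Valuation rings of fields with many half rigid classes or with many relations. -/

namespace Pool.Agent.X321.DH

open Module TensorProduct Pool.Agent.H315R3.ETC Pool.Agent.TH188.ET Pool.Agent.Y920.ETC Pool.Agent.X321.MQ
open Pool.Agent.X321.MR
open Pool.Agent.Results.MP_600e55_nt

open Pool.Agent.Results.MP_600e55_nt.ManyQuaternionAlgebras in
/-- the valuation ring of a field with many half rigid classes -/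
theorem ring_of_half (F : Type) [Field F] (h2 : (2 : F) ≠ 0) (hfin : (squares F).index ≠ 0)
    (hmany : ManyHalfRigid F) :
    ∃ O : ValuationSubring F, Sqr O ∧
      ∃ c : Fˣ, ∀ f : Fˣ, ¬ (((c * f ^ 2 : Fˣ) : F) ∈ O ∧ (((c * f ^ 2)⁻¹ : Fˣ) : F) ∈ O) := by
  classical
  have hF : FinSq F := by
    have : Finite (Fˣ ⧸ squares F) := by
      by_contra hc
      rw [not_finite_iff_infinite] at hc
      exact hfin Nat.card_eq_zero_of_infinite
    exact this
  obtain ⟨S, hS, hSf, hSq⟩ := exists_structure h2 hF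
  obtain ⟨φ, hs, hk, hn, h0, hq⟩ := hS
  obtain ⟨B, hB⟩ := Pool.Agent.Y67.ET.t_BASIC S hSq
  have hft : Fintype S.G := Fintype.ofFinite _
  have hcard : Nat.card S.G = (squares F).index := card_eq hs hk
  have hneg1 : IsSquare (-1 : F) → S.neg = 1 := by
    rintro ⟨r, hr⟩
    have hr0 : r ≠ 0 := by
      rintro rfl
      rw [mul_zero, neg_eq_zero] at hr
      exact one_ne_zero hr
    rw [← hn, hk]
    refine ⟨Units.mk0 r hr0, ?_⟩
    apply Units.ext
    rw [Units.val_neg, Units.val_one, Units.val_pow_eq_pow_val, Units.val_mk0, hr, pow_two]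
  -- a birigid class
  obtain ⟨hbi, hsize⟩ : (∃ a : S.G, Bi S a) ∧
      (5 ≤ Nat.card S.G ∨ (4 ≤ Nat.card S.G ∧ S.neg = 1)) := by
    obtain ⟨h8, hm⟩ := hmany
    rw [← hcard] at h8 hm
    have hle : {x : Fˣ ⧸ squares F | ∃ a : Fˣ, (a : Fˣ ⧸ squares F) = x ∧
        HalfRigid a}.ncard ≤ (HrF S).card := by
      have hker : squares F ≤ φ.ker := by
        rintro _ ⟨y, rfl⟩
        rw [MonoidHom.mem_ker, hk]
        exact ⟨y, rfl⟩
      rw [← Set.ncard_coe_finset]
      refine Set.ncard_le_ncard_of_injOn (QuotientGroup.lift (squares F) φ hker) ?_ ?_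
        (Set.toFinite _)
      · rintro _ ⟨a, rfl, ha⟩
        rw [Finset.mem_coe, mem_HrF, QuotientGroup.lift_mk]
        intro e he
        obtain ⟨c, rfl⟩ := hs e
        rw [q_zero h0 hq h2] at he
        obtain ⟨y, z, hyz⟩ := he
        rcases ha c y z hyz with ⟨r, hr⟩ | ⟨r, hr⟩
        · left
          rw [hk]
          exact ⟨r, hr.symm⟩
        · right
          have h6 : φ (-a * c) = 1 := by
            rw [hk]
            exact ⟨r, hr.symm⟩
          have h7 : φ (-a) = S.neg * φ a := by rw [← hn, ← map_mul, neg_one_mul]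
          rw [map_mul, h7] at h6
          exact (eq_of_mul hSq _ _ h6).symm
      · intro x _ y _ hxy
        obtain ⟨x, rfl⟩ := QuotientGroup.mk_surjective x
        obtain ⟨y, rfl⟩ := QuotientGroup.mk_surjective y
        rw [QuotientGroup.lift_mk, QuotientGroup.lift_mk] at hxy
        rw [QuotientGroup.eq]
        have h6 : φ (x⁻¹ * y) = 1 := by rw [map_mul, map_inv, hxy, inv_mul_cancel]
        rw [hk] at h6
        obtain ⟨r, hr⟩ := h6
        exact ⟨r, hr.symm⟩
    have hq4 : 4 ≤ Nat.card S.G := by omega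
    refine ⟨exists_bi_of_hr hSq (by omega) (by omega), ?_⟩
    rcases h8 with h8 | ⟨h8, hi⟩
    · left; omega
    · exact Or.inr ⟨h8, hneg1 hi⟩
  exact exists_val' hs hk hn h0 hq hSq h2 B hB hbi (exists_beta B hsize)

open Pool.Agent.Results.MP_600e55_nt.ManyRelations

/-- `Sqr` rings with an additional element are good -/
lemma good_two {F : Type} [Field F] {O : ValuationSubring F} (hO : Sqr O)
    (hc : ∃ c : Fˣ, ∀ f : Fˣ, ¬ (((c * f ^ 2 : Fˣ) : F) ∈ O ∧ (((c * f ^ 2)⁻¹ : Fˣ) : F) ∈ O)) :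
    Good 2 O := by
  refine ⟨by exact_mod_cast hO.1, ?_, ?_⟩
  · intro x hx hx'
    obtain ⟨y, hy⟩ := hO.2.2 x hx hx'
    exact ⟨y, by rw [pow_two]; exact hy.symm⟩
  · intro e
    obtain ⟨c, hc⟩ := hc
    have h5 : c ∈ O.unitGroup ⊔ powers 2 F := by
      rw [e]
      trivial
    rw [Subgroup.mem_sup] at h5
    obtain ⟨u, hu, _, ⟨f, rfl⟩, hcf⟩ := h5
    have h6 : c * f⁻¹ ^ 2 = u := by
      rw [← hcf]
      change u * f ^ 2 * f⁻¹ ^ 2 = u
      rw [mul_assoc, ← mul_pow, mul_inv_cancel, one_pow, mul_one]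
    apply hc f⁻¹
    rw [h6]
    constructor
    · rw [← ValuationSubring.valuation_le_one_iff]
      exact le_of_eq hu
    · rw [← ValuationSubring.valuation_le_one_iff]
      exact le_of_eq (inv_mem hu : u⁻¹ ∈ O.unitGroup)

/-- a subspace with rigid classes outside gives a good valuation ring -/
lemma good_of_sub {p : ℕ} [Fact p.Prime] {F : Type} [Field F] (hpF : (p : F) ≠ 0)
    (hneg : p ≠ 2 ∨ IsSquare (-1 : F)) (hfin : FiniteDimensional (ZMod p) (K1 p F))
    (W : Submodule (ZMod p) (K1 p F))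
    (hWlt : finrank (ZMod p) W < finrank (ZMod p) (K1 p F))
    (hd : 2 ≤ finrank (ZMod p) (K1 p F))
    (hW : ∀ x y : Fˣ, (x : F) + y = 1 → cl p x ∉ W → cl p y = 0 ∨ cl p y = cl p x) :
    ∃ O : ValuationSubring F, Good p O := by
  have h := cls (p := p) hneg
  have hA : Finite (K1 p F) := Module.finite_of_finite (ZMod p)
  obtain ⟨c, hcW⟩ : ∃ c : Fˣ, cl p c ∉ W := by
    by_contra hc
    push Not at hc
    have : W = ⊤ := by
      rw [eq_top_iff]
      intro x _
      obtain ⟨c, rfl⟩ := cl_surj x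
      exact hc c
    rw [this, finrank_top] at hWlt
    exact lt_irrefl _ hWlt
  by_cases hp2 : p = 2
  · subst hp2
    have h2 : (2 : F) ≠ 0 := by exact_mod_cast hpF
    have hsq : IsSquare (-1 : F) := hneg.resolve_left (fun h3 => h3 rfl)
    have hFq : Finite (Fˣ ⧸ powers 2 F) := hA
    have h4 : 4 ≤ (powers 2 F).index := by
      have h5 : (powers 2 F).index = 2 ^ finrank (ZMod 2) (K1 2 F) := by
        have h6 := Module.natCard_eq_pow_finrank (K := ZMod 2) (V := K1 2 F)
        rw [Nat.card_zmod] at h6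
        exact h6
      rw [h5]
      calc 4 = 2 ^ 2 := rfl
        _ ≤ _ := Nat.pow_le_pow_right (by norm_num) hd
    obtain ⟨O, hO, hc⟩ := two_part h2 hsq hFq h4 h cl_zero W hW c hcW
    exact ⟨O, good_two hO hc⟩
  · obtain ⟨O, hO, hU, -⟩ := odd_part hp2 hpF h cl_zero W hW
    have h1 : O.unitGroup ⊔ powers p F ≤ sgp p h W := by
      refine sup_le hU ?_
      intro x hx
      rw [mem_sgp, (cl_zero x).2 (by
        obtain ⟨y, rfl⟩ := hx
        exact ⟨y, rfl⟩)]
      exact W.zero_mem
    refine ⟨O, hO.1, hO.2.2, ?_⟩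
    intro e
    rw [e] at h1
    exact hcW (h1 trivial)

/-- good valuation rings of fields with many relations -/
theorem exists_good {p : ℕ} [Fact p.Prime] {F : Type} [Field F] (hpF : (p : F) ≠ 0)
    (hneg : p ≠ 2 ∨ IsSquare (-1 : F)) (hfin : FiniteDimensional (ZMod p) (K1 p F))
    (hX : 2 ≤ chiField p F ∨ HasSmallSubspace p F ∨ (2 ≤ finrank (ZMod p) (K1 p F) ∧
      ¬ HasPair (⊤ : Submodule (ZMod p) (K1 p F)))) :
    ∃ O : ValuationSubring F, Good p O := by
  rcases hX with hX | ⟨X, h1, h2⟩ | ⟨hd, hX⟩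
  · obtain ⟨W, hW1, hd, hW⟩ := exists_rigid (cls (p := p) hneg)
      (by rw [dl_top hneg hfin]; exact hX)
    rw [dl_top hneg hfin] at hW1
    exact good_of_sub hpF hneg hfin W (by omega) hd hW
  · obtain ⟨W, hW1, hd, hW⟩ := exists_rigid' (cls (p := p) hneg) ⟨X, (hasPair_iff X).1 h1, by
      rw [dl_eq hneg hfin, dl_top hneg hfin]
      exact h2⟩
    exact good_of_sub hpF hneg hfin W hW1 hd hW
  · have hfree : ∀ x y, St (cl p : Fˣ → K1 p F) x y → ¬ Fr (ZMod p) x y := by
      intro x y h1 h2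
      exact hX ((hasPair_iff _).2 ⟨x, y, h1, h2, trivial, trivial⟩)
    obtain ⟨W, hW, hW'⟩ := exists_sub_noFree (cls (p := p) hneg) hfree
    exact good_of_sub hpF hneg hfin W (by omega) hd hW'

/-- the case `p = 2` if `-1` is not a square -/
theorem exists_good_two {F : Type} [Field F] (h2 : (2 : F) ≠ 0) (hneg : ¬ IsSquare (-1 : F))
    (hfin : FiniteDimensional (ZMod 2) (K1 2 F)) (hchi : 4 ≤ chiField 2 F) :
    ∃ O : ValuationSubring F, Good 2 O := by
  classical
  have he : cl 2 (-1 : Fˣ) ≠ 0 := by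
    intro e
    rw [cl_zero] at e
    obtain ⟨y, hy⟩ := e
    apply hneg
    refine ⟨(y : F), ?_⟩
    have h3 := congrArg (fun u : Fˣ => (u : F)) hy
    simp only [Units.val_neg, Units.val_one, Units.val_pow_eq_pow_val] at h3
    rw [h3, pow_two]
  have hA : Finite (K1 2 F) := Module.finite_of_finite (ZMod 2)
  have hm : ∀ x y : Fˣ, cl 2 (x * y) = cl 2 x + cl 2 y := fun _ _ => rfl
  have hd : 1 ≤ finrank (ZMod 2) (K1 2 F) := by
    have : Nontrivial (K1 2 F) := ⟨⟨_, _, he⟩⟩
    exact finrank_pos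
  have hchoose : (finrank (ZMod 2) (K1 2 F)).choose 2 =
      (finrank (ZMod 2) (K1 2 F) - 1).choose 2 + (finrank (ZMod 2) (K1 2 F) - 1) := by
    obtain ⟨n, hn⟩ : ∃ n, finrank (ZMod 2) (K1 2 F) = n + 1 :=
      ⟨finrank (ZMod 2) (K1 2 F) - 1, by omega⟩
    rw [hn, Nat.add_sub_cancel, Nat.choose_succ_succ' n 1, Nat.choose_one_right, add_comm]
  obtain ⟨hd3, S, hS, hS'⟩ := many_hr (cl := (cl 2 : Fˣ → K1 2 F)) hm cl_surj he (by
    change (finrank (ZMod 2) (K1 2 F) - 1).choose 2 + 3 ≤ finrank (ZMod 2) (K2 2 F)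
    unfold chiField at hchi
    omega)
  have hidx : (powers 2 F).index = 2 ^ finrank (ZMod 2) (K1 2 F) := by
    have h6 := Module.natCard_eq_pow_finrank (K := ZMod 2) (V := K1 2 F)
    rw [Nat.card_zmod] at h6
    exact h6
  have hmany : ManyQuaternionAlgebras.ManyHalfRigid F := by
    refine ⟨Or.inl ?_, ?_⟩
    · change 8 ≤ (powers 2 F).index
      rw [hidx]
      calc 8 = 2 ^ 3 := rfl
        _ ≤ _ := Nat.pow_le_pow_right (by norm_num) hd3
    · change (powers 2 F).index < _
      rw [hidx]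
      refine lt_of_lt_of_le hS (Nat.mul_le_mul_left 2 ?_)
      have hfin' : Finite (Fˣ ⧸ ManyQuaternionAlgebras.squares F) := hA
      rw [← Set.ncard_coe_finset]
      refine Set.ncard_le_ncard_of_injOn (fun x : K1 2 F =>
        (show Fˣ ⧸ ManyQuaternionAlgebras.squares F from Additive.toMul x)) ?_ ?_ (Set.toFinite _)
      · intro x hx
        obtain ⟨a, rfl⟩ := cl_surj x
        refine ⟨a, rfl, ?_⟩
        intro c y z hyz
        by_cases hz : z = 0
        · left
          rw [hz] at hyz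
          have hy : y ≠ 0 := by
            rintro rfl
            exact c.ne_zero (by rw [hyz]; ring)
          exact ⟨Units.mk0 y hy, Units.ext (by
            change y ^ 2 = (c : F)
            rw [hyz]; ring)⟩
        by_cases hy : y = 0
        · right
          refine ⟨a * Units.mk0 z hz, Units.ext ?_⟩
          change ((a : F) * z) ^ 2 = ((-a * c : Fˣ) : F)
          rw [Units.val_mul, Units.val_neg, hyz, hy]
          ring
        set t : Fˣ := Units.mk0 (z / y) (div_ne_zero hz hy) with ht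
        have htv : (t : F) = z / y := rfl
        set y' : Fˣ := Units.mk0 y hy with hy'
        have hy'v : (y' : F) = y := rfl
        have hsq : ∀ u : Fˣ, cl 2 (u ^ 2) = 0 := fun u => (cl_zero _).2 ⟨u, rfl⟩
        have h5 : cl 2 (a * t ^ 2) = cl 2 a := by rw [hm, hsq, add_zero]
        have h7 : cl 2 (c * (y'⁻¹) ^ 2) = cl 2 c := by rw [hm, hsq, add_zero]
        have h8 := hS' _ hx (cl 2 c) (by
          rw [← h5, ← h7]
          refine Submodule.subset_span ⟨_, _, ?_, rfl⟩
          rw [Units.val_mul, Units.val_mul, Units.val_pow_eq_pow_val, Units.val_pow_eq_pow_val,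
            Units.val_inv_eq_inv_val, htv, hy'v, hyz]
          field_simp
          ring)
        rcases h8 with h8 | h8
        · left
          rw [cl_zero] at h8
          obtain ⟨u, hu⟩ := h8
          exact ⟨u, hu.symm⟩
        · right
          have h9 : cl 2 (-a * c) = 0 := by
            have h10 : -a * c = (-1) * (a * c) := by rw [neg_one_mul, neg_mul]
            rw [h10, hm, hm, h8]
            have h11 := add_self_zero (cl 2 a + cl 2 (-1 : Fˣ))
            calc _ = (cl 2 a + cl 2 (-1 : Fˣ)) + (cl 2 a + cl 2 (-1 : Fˣ)) := by abel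
              _ = 0 := h11
          rw [cl_zero] at h9
          obtain ⟨u, hu⟩ := h9
          exact ⟨u, hu.symm⟩
      · intro x _ y _ hxy
        exact hxy
  have hne : (ManyQuaternionAlgebras.squares F).index ≠ 0 := by
    have hfin' : Finite (Fˣ ⧸ ManyQuaternionAlgebras.squares F) := hA
    exact Subgroup.index_ne_zero_of_finite
  obtain ⟨O, hO, hc⟩ := ring_of_half F h2 hne hmany
  exact ⟨O, good_two hO hc⟩

end Pool.Agent.X321.DH
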