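import Mathlib

set_option autoImplicit false

/-! Fields with a pro-p absolute Galois group contain the `p`-th roots of unity. -/

namespace Pool.Agent.X321.DH

theorem exists_zeta {p : ℕ} (hp : p.Prime) {K : Type} [Field K] (hpK : (p : K) ≠ 0)
    (h : ∀ L : IntermediateField K (AlgebraicClosure K), FiniteDimensional K L → IsGalois K L →
      ∃ k : ℕ, Module.finrank K L = p ^ k) : ∃ ζ : K, IsPrimitiveRoot ζ p := by
  have hne : NeZero p := ⟨hp.ne_zero⟩
  have hpf : Fact p.Prime := ⟨hp⟩
  have hne' : NeZero ((p : ℕ) : AlgebraicClosure K) := ⟨by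
    rw [← map_natCast (algebraMap K (AlgebraicClosure K))]
    exact (map_ne_zero _).2 hpK⟩
  obtain ⟨ζ, hζ⟩ := HasEnoughRootsOfUnity.exists_primitiveRoot (AlgebraicClosure K) p
  let L : IntermediateField K (AlgebraicClosure K) := IntermediateField.adjoin K {ζ}
  have hc : IsCyclotomicExtension {p} K L := hζ.intermediateField_adjoin_isCyclotomicExtension K
  have hfd : FiniteDimensional K L := IsCyclotomicExtension.finiteDimensional {p} K L
  have hg : IsGalois K L := IsCyclotomicExtension.isGalois {p} K L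
  obtain ⟨k, hk⟩ := h L hfd hg
  have hζL := IsCyclotomicExtension.zeta_spec p K L
  have hdvd : Nat.card (L ≃ₐ[K] L) ∣ Nat.card (ZMod p)ˣ :=
    Subgroup.card_dvd_of_injective _ (hζL.autToPow_injective K)
  rw [IsGalois.card_aut_eq_finrank, hk, Nat.card_eq_fintype_card, ZMod.card_units] at hdvd
  have hk0 : k = 0 := by
    by_contra hk0
    have h1 : p ∣ p - 1 := (dvd_pow_self p hk0).trans hdvd
    have h2 := Nat.le_of_dvd (Nat.sub_pos_of_lt hp.one_lt) h1
    have := hp.one_lt
    omega
  rw [hk0, pow_zero] at hk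
  have hbot : L = ⊥ := IntermediateField.finrank_eq_one_iff.1 hk
  have hmem : ζ ∈ L := IntermediateField.mem_adjoin_simple_self K ζ
  rw [hbot, IntermediateField.mem_bot] at hmem
  obtain ⟨b, hb⟩ := hmem
  exact ⟨b, IsPrimitiveRoot.of_map_of_injective (hb ▸ hζ)
    (algebraMap K (AlgebraicClosure K)).injective⟩

end Pool.Agent.X321.DH
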